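import Pool.Agent.W900.CH.NELev
import Pool.Agent.W900.CH.Hard

/-!
# How many strings of a random oracle have to be changed to get a sparse Cook-complete set for `NP`?

The number of changes is measured by a function `g`: the oracle `A` is obtained from `O` by changing,
for all large `n`, at most `g n` of the strings of length at most `n`. If `g n ≤ 2 ^ (n ^ ε)` for
every `ε > 0` and infinitely many `n`, then no sparse set is complete for `NP^A` under Cook
reductions relative to `A` (no sparse set, in `NP^A` or not, is even hard) for almost every oracle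
`O` and all oracles `A` that are obtained from `O` by at most `g` changes, however these changes
depend on `O`.
Otherwise every oracle `O` can be changed, by at most `g` changes, into an oracle `A` such
that some sparse set is complete for `NP^A` under Cook reductions relative to `A`; and into an
oracle `A` with `P^A ≠ NP^A` such that some sparse set is hard for `NP^A`.

So the threshold is exactly at the functions which are not subexponential.
-/

set_option autoImplicit false

namespace Pool.Agent.Results.MP_69a69c_lc.ChangedStrings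

open Pool.Agent.NPC Pool.Agent.H620R2.Gauge Pool.Agent.W900.CH
open Pool.Agent.W900.SP (join)
open Pool.Agent.H628R3.RO (randomOracle)
open MeasureTheory

theorem result (g : ℕ → ℝ) :
    ((∀ ε : ℝ, 0 < ε → ∃ᶠ n : ℕ in Filter.atTop, g n ≤ 2 ^ (n : ℝ) ^ ε) →
      ∀ᵐ O ∂randomOracle, ∀ A : Oracle, Close g O A →
        ¬ ∃ S : Oracle, Sparse S ∧ ∀ L, IsNP A L → IsP (join A S) L) ∧
    ((¬ ∀ ε : ℝ, 0 < ε → ∃ᶠ n : ℕ in Filter.atTop, g n ≤ 2 ^ (n : ℝ) ^ ε) →
      ∀ O : Oracle,
        (∃ A : Oracle, Close g O A ∧ ∃ S : Oracle, Sparse S ∧ IsNP A {x | S x = true} ∧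
          ∀ L, IsNP A L → IsP (join A S) L) ∧
        ∃ A : Oracle, Close g O A ∧ (∃ L, IsNP A L ∧ ¬ IsP A L) ∧
          ∃ S : Oracle, Sparse S ∧ ∀ L, IsNP A L → IsP (join A S) L) := by
  refine ⟨fun hg => ?_, fun hg O => ⟨?_, ?_⟩⟩
  · filter_upwards [ae_coNP hg] with O hO A hA
    rintro ⟨S, hS, h⟩
    obtain ⟨L, h1, h2⟩ := hO A hA
    exact h2 (advice_of_sparse hS (h L h1)).compl_np
  · obtain ⟨A, h1, h2⟩ := exists_close_PSPACE hg O
    have h3 : ∀ L, IsPSPACE A L → IsP A L := fun L hL => isP_of_reduces (h2 L hL)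
    refine ⟨A, h1, fun _ => false, ⟨0, fun n => by simp⟩, ?_, fun L hL => ?_⟩
    · refine IsP.isNP ⟨fun _ => [], IsFP.of_poly (NPC.Poly.const _), fun x => by simp⟩
    · obtain ⟨V, hV, h4⟩ := h3 L hL.isPSPACE
      exact ⟨V, Pool.Agent.W900.SP.isFP_join _ hV, h4⟩
  · obtain ⟨A, h1, h2, L, h3, h4⟩ := exists_close_ZPP hg O
    obtain ⟨S, hS, h5⟩ := sparse_hard (A := A) (C := {L | IsNP A L}) (countable_np A) (by
        intro L hL
        exact zpp_advice (h2 L (Or.inr (show IsNP A L from hL).isPSPACE)))
    exact ⟨A, h1, ⟨L, h3.isNP, h4⟩, S, hS, h5⟩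

end Pool.Agent.Results.MP_69a69c_lc.ChangedStrings
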