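import Mathlib
import Pool.Agent.H592R3.Defs
import Pool.Agent.W964.Wd.Co.Defs
import Pool.Agent.W964.Wd.Co.Main

/-!
Oracles that are sparse or co-sparse on every length are not hard for NP under parallel Turing
reductions, computed by ideal parallel random access machines (priority concurrent writing,
concurrent searching of lists of cells, arbitrary instruction set, unbounded words, unbounded
memory, different programs for different processors) in which every processor asks the oracle in
every step, even if the reductions are randomized with error and may alternate between existential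
and universal guesses with altogether `(1 - ε) n` bits.
-/

set_option autoImplicit false

open SmallDepth Finset Filter Pool.Agent.W964.Wd

namespace Pool.Agent.Results.MP_69a69c_lc.ParallelCookReductions

/-- 1. For every `ε > 0` and `K` there is `C > 0` such that the following holds for `n ≥ 2`
variables, `T ≥ 1` steps, every list `L` of existential and universal quantifiers, width
`C (T + |L|) log n ≤ w ≤ n` and `M ≥ n 2 ^ w` clauses. Let `R` be a randomized alternating parallel
oracle machine with the quantifiers `L`, `P` processors and lists of length at most `2 ^ (K n)` that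
asks strings of length at most `k`, and such that for every `l ≤ k` its oracle or the complement of
its oracle contains at most `D ≤ 2 ^ (K n)` strings of length `l`. Let `total L` be the number of
possible guesses. If `total L * (P (1 + D k) + |L| (2 n M + 1)) ≤ 2 ^ ((1 - ε) n)`, then there is a
formula with `n` variables, `M` clauses and width at most `w` for which `R` gives after `T` steps
the right answer to the question whether it is satisfiable with probability at most
`1 / 2 + 2 ^ (-w / C)`.

2. For `0 < δ < 2`, every `K` and every number of steps `T n = o (n / log n)` there are a width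
`w n = O (T n log n) = o (n)` and a number of clauses `M n ≤ n ^ O(T n) = 2 ^ o(n)` such that
randomized alternating parallel oracle machines as in 1 with `P ≥ 1` and at most `T n` blocks of
quantifiers for which the product of `P (1 + D k)` and the number of possible guesses is at most
`(2 - δ) ^ n` times a polynomial in `M n` do not decide in `T n` steps with error probability at
most `1 / 3` whether a formula with `n` variables, `M n` clauses and width at most `w n` is
satisfiable, for all large `n`. -/
theorem result :
    (∀ (ε : ℝ) (K : ℕ), 0 < ε → ∃ C : ℝ, 0 < C ∧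
      ∀ (n T w M : ℕ) (L : List (Bool × ℕ)), 2 ≤ n → 1 ≤ T → (∀ qb ∈ L, 1 ≤ qb.2) →
      C * (((T + L.length : ℕ) : ℝ) * Real.log n) ≤ w → w ≤ n → n * 2 ^ w ≤ M →
      ∀ (P k D : ℕ) (R : ROAMachine Bool (Fin M × Fin n × Bool) P L),
        ((total L * (P * (1 + D * k) + L.length * (2 * n * M + 1)) : ℕ) : ℝ) ≤
          2 ^ ((1 - ε) * n) →
        D ≤ 2 ^ (K * n) →
        (∀ ω, (R.mach ω).base.Lists (2 ^ (K * n)) ∧ (R.mach ω).base.SemiSparse k D) →
        ∃ x, WidthLe x w ∧
          R.success T x (∃ α, Models x α) ≤ 1 / 2 + (2 : ℝ) ^ (-((w : ℝ) / C))) ∧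
    (∀ (δ : ℝ) (K : ℕ), 0 < δ → δ < 2 → ∀ T : ℕ → ℕ, (∀ n, 1 ≤ T n) →
      (fun n : ℕ => (T n : ℝ) * Real.log n) =o[atTop] (fun n : ℕ => (n : ℝ)) →
      ∃ w M : ℕ → ℕ, (∃ C : ℝ, ∀ n, 2 ≤ n → (w n : ℝ) ≤ C * (T n * Real.log n) ∧
          (M n : ℝ) ≤ (n : ℝ) ^ (C * T n)) ∧
        ∀ c e : ℕ, ∀ᶠ n : ℕ in atTop,
          ∀ (L : List (Bool × ℕ)), L.length ≤ T n → (∀ qb ∈ L, 1 ≤ qb.2) →
          ∀ (P k D : ℕ) (R : ROAMachine Bool (Fin (M n) × Fin n × Bool) P L), 1 ≤ P →
            ((total L * (P * (1 + D * k)) : ℕ) : ℝ) ≤ (2 - δ) ^ n * (c * (M n : ℝ) ^ e) →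
            D ≤ 2 ^ (K * n) →
            (∀ ω, (R.mach ω).base.Lists (2 ^ (K * n)) ∧ (R.mach ω).base.SemiSparse k D) →
            ∃ x, WidthLe x (w n) ∧ R.success (T n) x (∃ α, Models x α) < 2 / 3) :=
  ⟨fun ε K hε => co_rand ε hε K, fun δ K hδ hδ2 T hT hTo => co_asym δ hδ hδ2 K T hT hTo⟩

end Pool.Agent.Results.MP_69a69c_lc.ParallelCookReductions
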