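import Pool.Agent.W908.B.B7

set_option autoImplicit false

/-!
# A tally set that is complete for `NP` under Cook reductions, while `NP` is hard on average
-/

namespace Pool.Agent.Results.MP_69a69c_lc.TallyCompleteHardOnAverage

open Pool.Agent.H620R2.Gauge Pool.Agent.W908 Pool.Agent.W908.QS

/-- There are an oracle `O` and a tally set `T` such that `T` and its complement are in `UP`
relative to `O` (so `T` is a sparse set in `NP`), every language in exponential time relative to
`O` (in particular every language in `NP`) is Cook-reducible to `T` relative to `O`, and some
language in `UP ∩ coUP` is hard on average for quantum polynomial time on all sufficiently large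
lengths. -/
theorem result : ∃ O T : Oracle,
    (∀ x : List Bool, T x = true → ∃ n, x = List.replicate n true) ∧
    IsUP O {x | T x = true} ∧ IsUP O {x | T x = true}ᶜ ∧
    (∀ L : Set (List Bool), IsEXP O L → IsP (join O T) L) ∧
    ∃ L : Set (List Bool), IsUP O L ∧ IsUP O Lᶜ ∧ QuantumHardOnAverage O L :=
  Pool.Agent.W908.BS.main_tally

end Pool.Agent.Results.MP_69a69c_lc.TallyCompleteHardOnAverage
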